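import Pool.Agent.H.MP_8dad47_al.C

set_option autoImplicit false

namespace Pool.Agent.HShift

open Finset

variable {α : Type} [LinearOrder α] [Fintype α] {B : Set (α →₀ ℕ)}

lemma MC.box (hB : MC B) (a e : α → ℕ)
    (h1 : ∀ Y : Finset α, ∃ y ∈ B, ∑ j ∈ Y, a j ≤ ∑ j ∈ Y, (y j + e j))
    (h2 : ∀ X : Finset α, ∃ y ∈ B, ∑ j ∈ X, y j ≤ ∑ j ∈ X, a j) :
    ∃ x ∈ B, ∀ j, x j ≤ a j ∧ a j ≤ x j + e j := by
  classical
  obtain ⟨x, hx, -⟩ := h2 ∅
  induction hm : ∑ j, (x j - a j + (a j - (x j + e j))) using Nat.strong_induction_on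
    generalizing x with
  | h m ih =>
  by_contra h
  have h3 : ∀ u w y, y ∈ B → Mv x y u w → x u < a u → a w < x w + e w →
      (x u + e u < a u ∨ a w < x w) → False := fun u w y hy h4 h5 h6 h7 =>
    h (ih _ (hm ▸ sum_lt_sum (fun j _ => by have := h4 j; grind) (by
      rcases h7 with h7 | h7
      · exact ⟨u, mem_univ _, by have := h4 u; grind⟩
      · exact ⟨w, mem_univ _, by have := h4 w; grind⟩)) y hy rfl)
  obtain ⟨j, hj⟩ : ∃ j, ¬ (x j ≤ a j ∧ a j ≤ x j + e j) := not_forall.1 fun h' => h ⟨x, hx, h'⟩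
  by_cases h4 : a j < x j
  · let Y : Finset α := {w | ∃ z, x z < a z ∧ Ex B x z w}
    obtain ⟨y, hy, h5⟩ := h2 Yᶜ
    have h6 := hB.tight hx (R := Y) (fun u hu w h => by
      obtain ⟨z, h1, h2⟩ := (mem_filter.1 hu).2
      exact mem_filter.2 ⟨mem_univ _, z, h1, hB.trans hx h2 h⟩) y hy
    have h7 : ∑ j ∈ Yᶜ, a j < ∑ j ∈ Yᶜ, x j := sum_lt_sum (fun j hj => not_lt.1 fun h =>
      mem_compl.1 hj (mem_filter.2 ⟨mem_univ _, j, h, Ex.rfl hx j⟩)) ⟨j, mem_compl.2 fun h => by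
        obtain ⟨z, h1, y, hy, h2⟩ := (mem_filter.1 h).2
        exact h3 z j y hy h2 h1 (by omega) (.inr h4), h4⟩
    have := hB.deg x hx y hy
    rw [← sum_add_sum_compl Y, ← sum_add_sum_compl Y] at this
    omega
  · let Y : Finset α := {w | Ex B x j w}
    obtain ⟨y, hy, h5⟩ := h1 Y
    have h6 := hB.tight hx (R := Y) (fun u hu w h =>
      mem_filter.2 ⟨mem_univ _, hB.trans hx (mem_filter.1 hu).2 h⟩) y hy
    have h7 : ∑ j ∈ Y, (x j + e j) < ∑ j ∈ Y, a j := sum_lt_sum (fun w hw => not_lt.1 fun h => by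
      obtain ⟨y, hy, h2⟩ := (mem_filter.1 hw).2
      exact h3 j w y hy h2 (by omega) h (.inl (by omega)))
      ⟨j, mem_filter.2 ⟨mem_univ _, Ex.rfl hx j⟩, by omega⟩
    rw [sum_add_distrib] at h5 h7
    omega

/-- The rank function. -/
noncomputable def rk (B : Set (α →₀ ℕ)) (A : Finset α) : ℕ := sSup ((fun x => ∑ j ∈ A, x j) '' B)

lemma MC.mx (hB : MC B) {x : α →₀ ℕ} (hx : x ∈ B) (g : (α →₀ ℕ) → ℕ)
    (hg : ∀ y, g y ≤ 2 * ∑ j, y j) : ∃ y ∈ B, g y = sSup (g '' B) ∧ ∀ z ∈ B, g z ≤ g y := by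
  have h : BddAbove (g '' B) := ⟨2 * ∑ j, x j, by
    rintro _ ⟨y, hy, rfl⟩
    rw [hB.deg x hx y hy]
    exact hg y⟩
  obtain ⟨y, hy, h1⟩ := Nat.sSup_mem (Set.Nonempty.image g ⟨x, hx⟩) h
  exact ⟨y, hy, h1, fun z hz => h1 ▸ le_csSup h ⟨z, hz, rfl⟩⟩

lemma MC.rk_mem (hB : MC B) {x : α →₀ ℕ} (hx : x ∈ B) (A : Finset α) :
    ∃ y ∈ B, ∑ j ∈ A, y j = rk B A ∧ ∀ z ∈ B, ∑ j ∈ A, z j ≤ ∑ j ∈ A, y j :=
  hB.mx hx _ fun y => (sum_le_sum_of_subset (subset_univ _)).trans (by omega)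

lemma MC.le_rk (hB : MC B) {x : α →₀ ℕ} (hx : x ∈ B) (A : Finset α) : ∑ j ∈ A, x j ≤ rk B A := by
  obtain ⟨y, -, h1, h2⟩ := hB.rk_mem hx A
  exact h1 ▸ h2 x hx

lemma MC.submod (hB : MC B) {x : α →₀ ℕ} (hx : x ∈ B) (A C : Finset α) :
    rk B (A ∪ C) + rk B (A ∩ C) ≤ rk B A + rk B C := by
  obtain ⟨y, hy, -, h⟩ := hB.mx hx (fun y => ∑ j ∈ A ∪ C, y j + ∑ j ∈ A ∩ C, y j) fun y => by
    have := sum_le_sum_of_subset (f := y) (subset_univ (A ∪ C))
    have := sum_le_sum_of_subset (f := y) (subset_univ (A ∩ C))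
    omega
  have h1 : ∀ u w, Ex B y u w → (u ∈ A ∪ C → w ∈ A ∪ C) ∧ (u ∈ A ∩ C → w ∈ A ∩ C) := by
    rintro u w ⟨z, hz, h2⟩
    have := h z hz
    have := h2.sum (A ∪ C)
    have := h2.sum (A ∩ C)
    grind
  obtain ⟨z, hz, h2, -⟩ := hB.rk_mem hx (A ∪ C)
  obtain ⟨z', hz', h3, -⟩ := hB.rk_mem hx (A ∩ C)
  have := hB.tight hy (fun u hu w h => (h1 u w h).1 hu) z hz
  have := hB.tight hy (fun u hu w h => (h1 u w h).2 hu) z' hz'
  have := sum_union_inter (s₁ := A) (s₂ := C) (f := y)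
  have := hB.le_rk hy A
  have := hB.le_rk hy C
  omega

lemma MC.hsc_iff (hB : MC B) {x : α →₀ ℕ} (hx : x ∈ B) (i : ℕ) (a : α →₀ ℕ) :
    HSc B i a ↔ ∑ j, a j = ∑ j, x j + i ∧
      ∀ A : Finset α, A.Nonempty → ∑ j ∈ A, a j ≤ rk B A + min (#A - 1) i := by
  constructor
  · rintro ⟨F, h1, y, hy, h2, h3⟩
    have h4 : ∀ A : Finset α, ∑ j ∈ A, a j = ∑ j ∈ A, y j + #(A ∩ F) := fun A => by
      simp [← h2, sum_add_distrib]
    refine ⟨by rw [h4, univ_inter, h1, hB.deg x hx y hy], fun A ⟨j, hj⟩ => ?_⟩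
    have h5 := card_le_card (inter_subset_right (s₁ := A) (s₂ := F))
    have h6 := hB.le_rk hy A
    rw [h4]
    by_cases h : A ⊆ F
    · obtain ⟨l, h7, z, hz, h8⟩ := h3 j (h hj)
      have h9 := h8.sum A
      have := hB.le_rk hz A
      have := card_pos.2 ⟨j, hj⟩
      rw [inter_eq_left.2 h] at h5 ⊢
      rw [if_neg fun h' => h7 (h h'), if_pos hj] at h9
      omega
    · have := card_lt_card (ssubset_of_subset_of_ne (inter_subset_left (s₁ := A) (s₂ := F))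
        fun h' => h (inter_eq_left.1 h'))
      omega
  · rintro ⟨h1, h2⟩
    have h3 : ∀ U : Finset α, #Uᶜ ≤ 1 → ∃ F, Dl B a F ∧ #F = i ∧ F ⊆ U := fun U hU => by
      obtain ⟨y, hy, h3⟩ := hB.box a (fun j => if j ∈ U then 1 else 0) (fun Y => by
        obtain ⟨y, hy, h3, -⟩ := hB.rk_mem hx Y
        refine ⟨y, hy, ?_⟩
        rcases Y.eq_empty_or_nonempty with rfl | hY
        · simp
        have := h2 Y hY
        have := card_le_card (inter_subset_right (s₁ := Y) (s₂ := Uᶜ))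
        have := card_sdiff_add_card_inter Y U
        simp only [sum_add_distrib, sum_boole, filter_mem_eq_inter, Nat.cast_id,
          sdiff_eq_inter_compl] at *
        omega) fun X => by
        obtain ⟨y, hy, h3, -⟩ := hB.rk_mem hx Xᶜ
        refine ⟨y, hy, ?_⟩
        rw [hB.deg x hx y hy, ← sum_add_sum_compl X, ← sum_add_sum_compl X] at h1
        rcases Xᶜ.eq_empty_or_nonempty with h | h
        · simp only [h, sum_empty] at h1
          omega
        · have := h2 _ h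
          omega
      have h4 : ∀ j, y j + (if j ∈ ({j | y j < a j} : Finset α) then 1 else 0) = a j := fun j => by
        have := h3 j
        simp only [mem_filter_univ]
        grind
      refine ⟨_, ⟨y, hy, fun j => (h4 j).le⟩, ?_, fun j hj => ?_⟩
      · generalize ({j | y j < a j} : Finset α) = F at h4
        have h5 : ∑ j, (y j + if j ∈ F then 1 else 0) = ∑ j, a j := sum_congr rfl fun j _ => h4 j
        simp only [sum_add_distrib, sum_boole, filter_mem_eq_inter, Nat.cast_id, univ_inter] at h5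
        have := hB.deg x hx y hy
        omega
      · have := h3 j
        grind
    refine (hB.hsc i a).1 ⟨fun G ⟨y, hy, h4⟩ => ?_, ?_, fun v => ?_⟩
    · have h5 := sum_le_sum fun j (_ : j ∈ univ) => h4 j
      simp only [sum_add_distrib, sum_boole, filter_mem_eq_inter, Nat.cast_id, univ_inter] at h5
      have := hB.deg x hx y hy
      omega
    · obtain ⟨F, h4, h5, -⟩ := h3 univ (by simp)
      exact ⟨F, h4, h5⟩
    · obtain ⟨F, h4, h5, h6⟩ := h3 {v}ᶜ (by simp)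
      exact ⟨F, h4, h5, fun h => by simpa using h6 h⟩

lemma MC.hs (hB : MC B) (i : ℕ) : MC {a | HSc B i a} := by
  classical
  refine ⟨fun a ha b hb => ?_, fun a ha b hb p hp => ?_⟩ <;>
    obtain ⟨-, -, x, hx, -⟩ := id ha <;> rw [Set.mem_ofPred_eq, hB.hsc_iff hx] at ha hb
  · rw [ha.1, hb.1]
  let T : Finset α → Prop := fun A => A.Nonempty ∧ ∑ j ∈ A, a j = rk B A + min (#A - 1) i
  have h1 : ∀ A C, T A → T C → (A ∩ C).Nonempty → T (A ∪ C) := fun A C h1 h2 h3 => by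
    have h4 : (A ∪ C).Nonempty := h1.1.mono subset_union_left
    have := ha.2 _ h3
    have := ha.2 _ h4
    have := hB.submod hx A C
    have := sum_union_inter (s₁ := A) (s₂ := C) (f := a)
    have := card_union_add_card_inter A C
    have := card_le_card (subset_union_left (s₁ := A) (s₂ := C))
    have := card_le_card (subset_union_right (s₁ := A) (s₂ := C))
    have := card_pos.2 h3
    have := h1.2
    have := h2.2
    exact ⟨h4, by omega⟩
  have h2 : ∀ W : Finset α, (∀ w ∈ W, ∃ A, T A ∧ w ∈ A ∧ A ⊆ W) →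
      ∑ j ∈ W, b j ≤ ∑ j ∈ W, a j := by
    intro W
    induction W using Finset.strongInduction with
    | H W ih =>
    intro h
    rcases W.eq_empty_or_nonempty with rfl | ⟨w, hw⟩
    · simp
    obtain ⟨A, hA, h3⟩ := exists_maximal (s := {A ∈ W.powerset | T A}) (by
      obtain ⟨A, h1, -, h2⟩ := h w hw
      exact ⟨A, by simp [*]⟩)
    rw [mem_filter, mem_powerset] at hA
    have h4 := ih (W \ A) (sdiff_ssubset hA.1 hA.2.1) fun v hv => by
      obtain ⟨C, h4, h5, h6⟩ := h v (mem_sdiff.1 hv).1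
      refine ⟨C, h4, h5, subset_sdiff.2 ⟨h6, by_contra fun h7 => (mem_sdiff.1 hv).2 ?_⟩⟩
      rw [disjoint_comm, not_disjoint_iff_nonempty_inter] at h7
      exact h3 (y := A ∪ C) (mem_filter.2 ⟨mem_powerset.2 (union_subset hA.1 h6),
        h1 A C hA.2 h4 h7⟩) subset_union_left (mem_union_right _ h5)
    have := hb.2 A hA.2.1
    have := hA.2.2
    rw [← sum_sdiff hA.1, ← sum_sdiff hA.1]
    omega
  by_contra h
  let W : Finset α := {w | ∃ A, T A ∧ w ∈ A ∧ p ∉ A}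
  have h3 := h2 W fun w hw => by
    obtain ⟨A, h3, h4, h5⟩ := (mem_filter.1 hw).2
    exact ⟨A, h3, h4, fun v hv => mem_filter.2 ⟨mem_univ _, A, h3, hv, h5⟩⟩
  have h4 : ∑ j ∈ Wᶜ, b j < ∑ j ∈ Wᶜ, a j := sum_lt_sum (fun q hq => not_lt.1 fun h4 => by
    obtain ⟨c, h5⟩ : ∃ c, Mv a c q p := ⟨a + Finsupp.single q 1 - Finsupp.single p 1, fun j => by
      simp only [Finsupp.add_apply, Finsupp.tsub_apply, Finsupp.single_apply, @eq_comm _ _ j]
      split_ifs with h5 h6 h6 <;> subst_vars <;> omega⟩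
    refine h ⟨q, h4, c, (hB.hsc_iff hx i _).2 ⟨?_, fun A hA => ?_⟩, h5⟩
    · simpa [ha.1] using h5.sum univ
    · have h6 := h5.sum A
      have h7 := ha.2 A hA
      have h8 : q ∈ A → p ∉ A → ∑ j ∈ A, a j ≠ rk B A + min (#A - 1) i := fun h8 h9 h10 =>
        mem_compl.1 hq (mem_filter.2 ⟨mem_univ _, A, ⟨hA, h10⟩, h8, h9⟩)
      split_ifs at h6 with h9 h10 h10
      · omega
      · omega
      · have := h8 h10 h9
        omega
      · omega) ⟨p, mem_compl.2 fun h => by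
        obtain ⟨A, -, h4, h5⟩ := (mem_filter.1 h).2
        exact h5 h4, hp⟩
  have := ha.1.trans hb.1.symm
  rw [← sum_add_sum_compl W, ← sum_add_sum_compl W] at this
  omega

lemma MC.colon (hB : MC B) {C : Set (α →₀ ℕ)} (hC : C.Nonempty) {a : α →₀ ℕ}
    (h : ∀ c ∈ C, ∃ c' ∈ C, ∃ p ∈ B, c' + p ≤ a + c) : ∃ p ∈ B, p ≤ a := by
  obtain ⟨c0, h0⟩ := hC
  obtain ⟨p, hp, h1⟩ := hB.box a a (fun Y => by
    obtain ⟨-, -, p, hp, -⟩ := h c0 h0
    exact ⟨p, hp, sum_le_sum fun _ _ => le_add_self⟩) fun X => by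
      obtain ⟨c, hc, h1⟩ := exists_minimalFor_of_wellFoundedLT (· ∈ C) (fun c => ∑ j ∈ X, c j)
        ⟨c0, h0⟩
      obtain ⟨c', hc', p, hp, h2⟩ := h c hc
      have h3 := sum_le_sum fun j (_ : j ∈ X) => h2 j
      have h4 := fun h => h1 hc' h
      simp only [Finsupp.add_apply, sum_add_distrib] at h3 h4
      exact ⟨p, hp, by omega⟩
  exact ⟨p, hp, fun j => (h1 j).1⟩

lemma ass {S : Type} [CommRing S] [IsNoetherianRing S] {I J J' : Ideal S}
    (h : ∀ f, f ∈ J ↔ ∀ g ∈ I, f * g ∈ J') :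
    associatedPrimes S (S ⧸ J) ⊆ associatedPrimes S (S ⧸ J') := by
  intro P hP
  rw [AssociatedPrimes.mem_iff, isAssociatedPrime_iff] at hP ⊢
  obtain ⟨hP, f, h1⟩ := hP
  obtain ⟨f, rfl⟩ := Ideal.Quotient.mk_surjective f
  obtain ⟨s, hs⟩ := IsNoetherian.noetherian I
  have e : ∀ (J : Ideal S) (f r : S), r ∈ (⊥ : Submodule S (S ⧸ J)).colon {Ideal.Quotient.mk J f} ↔
      r * f ∈ J := fun J f r => by
    rw [Submodule.mem_colon_singleton, Submodule.mem_bot, ← Ideal.Quotient.eq_zero_iff_mem]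
    rfl
  obtain ⟨g, hg, h2⟩ := hP.inf_le'.1 (show s.inf (fun g => (⊥ : Submodule S (S ⧸ J')).colon
      {Ideal.Quotient.mk J' (f * g)}) ≤ P from fun r hr => by
    rw [h1, e, h]
    intro g hg
    rw [← hs] at hg
    induction hg using Submodule.span_induction with
    | mem g hg => rw [mul_assoc, ← e]; exact Submodule.mem_finsetInf.1 hr g hg
    | zero => simp
    | add a b _ _ h h' => rw [mul_add]; exact J'.add_mem h h'
    | smul c a _ h => rw [smul_eq_mul, mul_left_comm]; exact J'.mul_mem_left _ h)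
  refine ⟨hP, _, le_antisymm (fun r hr => ?_) h2⟩
  rw [h1, e, h] at hr
  rw [e, ← mul_assoc]
  exact hr g (hs ▸ Submodule.subset_span hg)

end Pool.Agent.HShift
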